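import Pool.Agent.SPV.StmtsE

set_option autoImplicit false

namespace Pool.Agent.SPV.H28

open Finset Filter Topology

theorem pow_sub_le {a b : ℝ} (hb : 0 ≤ b) (hab : b ≤ a) (ha : a ≤ 1) (n : ℕ) :
    a ^ n - b ^ n ≤ n * (a - b) := by
  induction n with
  | zero => simp
  | succ n ih =>
    have h1 : a ^ (n + 1) - b ^ (n + 1) = a * (a ^ n - b ^ n) + (a - b) * b ^ n := by ring
    have h2 : 0 ≤ a ^ n - b ^ n := sub_nonneg.2 (pow_le_pow_left₀ hb hab n)
    have h3 : a * (a ^ n - b ^ n) ≤ 1 * (a ^ n - b ^ n) := mul_le_mul_of_nonneg_right ha h2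
    have h4 : b ^ n ≤ 1 := pow_le_one₀ hb (hab.trans ha)
    have h5 : (a - b) * b ^ n ≤ (a - b) * 1 := mul_le_mul_of_nonneg_left h4 (sub_nonneg.2 hab)
    push_cast
    rw [h1]
    linarith

theorem nr_le {p q : ℕ} [Fact p.Prime] (hq : 0 < q) (A : Finset ℕ) (β : ℕ → ZMod p) :
    nr p q A β ≤ q := by
  classical
  unfold nr
  have h1 : {z : ZMod p | z ^ q = 1 ∧ ∑ i ∈ A, β i * z ^ i = 0} ⊆
      ((Polynomial.nthRoots q (1 : ZMod p)).toFinset : Set (ZMod p)) := by
    intro z hz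
    rw [mem_coe, Multiset.mem_toFinset, Polynomial.mem_nthRoots hq]
    exact hz.1
  have h2 := Set.ncard_le_ncard h1 (Finset.finite_toSet _)
  rw [Set.ncard_coe_finset] at h2
  exact h2.trans ((Multiset.toFinset_card_le _).trans (Polynomial.card_nthRoots _ _))

theorem nr_congr {p q : ℕ} {A : Finset ℕ} {β β' : ℕ → ZMod p} (h : ∀ i ∈ A, β i = β' i) :
    nr p q A β = nr p q A β' := by
  unfold nr
  congr 1
  ext z
  simp only [Set.mem_ofPred_eq]
  rw [sum_congr rfl fun i hi => by rw [h i hi]]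

/-- one application of ENE -/
theorem step {t t' : ℕ} {η δ : ℝ} (hη : 0 ≤ η) (hδ : 0 ≤ δ) (ht' : 1 ≤ t') (ht : t' ≤ t)
    {p q k r : ℕ} (hp : 2 ≤ p) (hq : 2 ≤ q) (hqp : q ≤ p) (hk1 : 1 ≤ k) (hk : (k : ℝ) ≤ (q : ℝ) ^ δ)
    (S : ℝ) (hS0 : 0 ≤ S) (hS : S ≤ t' * (k * (p : ℝ) ^ (2 * η)))
    (h : ((r : ℝ) ^ t' / ((q : ℝ) - 1) ^ (t' - 1) - ((t' : ℝ) - 1) * (k - 1)) * Real.log p ≤
      (t' * ((q : ℝ) - 1) / 2) * Real.log (q / ((q : ℝ) - 1) * S)) :
    ((r : ℝ) / ((q : ℝ) - 1)) ^ t' ≤ ((t' : ℝ) - 1) * (k - 1) / ((q : ℝ) - 1) +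
      t' * (η + δ / 2) + t * Real.log (2 * t) / (2 * Real.log p) := by
  have hqR : (2 : ℝ) ≤ q := by exact_mod_cast hq
  have hpR : (2 : ℝ) ≤ p := by exact_mod_cast hp
  have hkR : (1 : ℝ) ≤ k := by exact_mod_cast hk1
  have htR : (1 : ℝ) ≤ t' := by exact_mod_cast ht'
  have httR : (t' : ℝ) ≤ t := by exact_mod_cast ht
  have hq1 : 0 < (q : ℝ) - 1 := by linarith
  have hlogp : 0 < Real.log p := Real.log_pos (by linarith)
  have hp0 : (0 : ℝ) < p := by linarith
  have hpη : 1 ≤ (p : ℝ) ^ (2 * η) := Real.one_le_rpow (by linarith) (by linarith)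
  -- the logarithm
  have hlog : Real.log (q / ((q : ℝ) - 1) * S) ≤
      Real.log (2 * t) + 2 * (η + δ / 2) * Real.log p := by
    have h1 : Real.log (2 * t) + 2 * (η + δ / 2) * Real.log p =
        Real.log (2 * t) + δ * Real.log p + 2 * η * Real.log p := by ring
    have h2 : Real.log k ≤ δ * Real.log p := by
      have h3 := Real.log_le_log (by linarith) hk
      rw [Real.log_rpow (by linarith)] at h3
      have h4 : Real.log q ≤ Real.log p := Real.log_le_log (by linarith) (by exact_mod_cast hqp)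
      nlinarith
    have h5 : q / ((q : ℝ) - 1) * S ≤ (2 * t) * (k * (p : ℝ) ^ (2 * η)) := by
      have h6 : q / ((q : ℝ) - 1) ≤ 2 := by
        rw [div_le_iff₀ hq1]
        linarith
      have h7 : S ≤ t * (k * (p : ℝ) ^ (2 * η)) :=
        hS.trans (mul_le_mul_of_nonneg_right httR (by positivity))
      calc q / ((q : ℝ) - 1) * S ≤ 2 * S := mul_le_mul_of_nonneg_right h6 hS0
        _ ≤ 2 * (t * (k * (p : ℝ) ^ (2 * η))) := by linarith
        _ = _ := by ring
    have h8 : Real.log ((2 * t) * (k * (p : ℝ) ^ (2 * η))) =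
        Real.log (2 * t) + (Real.log k + 2 * η * Real.log p) := by
      have ht0 : (2 * (t : ℝ)) ≠ 0 := by linarith
      have hk0 : (k : ℝ) ≠ 0 := by linarith
      have hpp : (p : ℝ) ^ (2 * η) ≠ 0 := by linarith
      rw [Real.log_mul ht0 (mul_ne_zero hk0 hpp), Real.log_mul hk0 hpp, Real.log_rpow hp0]
    have h9 : Real.log (q / ((q : ℝ) - 1) * S) ≤ Real.log ((2 * t) * (k * (p : ℝ) ^ (2 * η))) := by
      rcases hS0.eq_or_lt with h0 | h0
      · rw [← h0, mul_zero, Real.log_zero]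
        refine Real.log_nonneg ?_
        have : (1 : ℝ) ≤ k * (p : ℝ) ^ (2 * η) := by nlinarith
        nlinarith
      · exact Real.log_le_log (mul_pos (div_pos (by linarith) hq1) h0) h5
    rw [h1]
    linarith
  have h1 : ((r : ℝ) ^ t' / ((q : ℝ) - 1) ^ (t' - 1) - ((t' : ℝ) - 1) * (k - 1)) * Real.log p ≤
      (t' * ((q : ℝ) - 1) / 2) * (Real.log (2 * t) + 2 * (η + δ / 2) * Real.log p) :=
    h.trans (mul_le_mul_of_nonneg_left hlog (by positivity))
  have hlog2t : 0 ≤ Real.log (2 * t) := Real.log_nonneg (by linarith)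
  -- divide
  have h2 : ((r : ℝ) / ((q : ℝ) - 1)) ^ t' =
      (r : ℝ) ^ t' / ((q : ℝ) - 1) ^ (t' - 1) / ((q : ℝ) - 1) := by
    rw [div_pow, div_div, ← pow_succ]
    congr 2
    omega
  have h3 : (r : ℝ) ^ t' / ((q : ℝ) - 1) ^ (t' - 1) ≤ ((t' : ℝ) - 1) * (k - 1) +
      (t' * ((q : ℝ) - 1) / 2) * (Real.log (2 * t) + 2 * (η + δ / 2) * Real.log p) / Real.log p := by
    have h4 : (r : ℝ) ^ t' / ((q : ℝ) - 1) ^ (t' - 1) - ((t' : ℝ) - 1) * (k - 1) ≤
      (t' * ((q : ℝ) - 1) / 2) * (Real.log (2 * t) + 2 * (η + δ / 2) * Real.log p) / Real.log p := by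
      rw [le_div_iff₀ hlogp]
      exact h1
    linarith
  rw [h2, div_le_iff₀ hq1]
  refine h3.trans ?_
  have h4 : (t' * ((q : ℝ) - 1) / 2) * (Real.log (2 * t) + 2 * (η + δ / 2) * Real.log p) / Real.log p =
      t' * (η + δ / 2) * ((q : ℝ) - 1) + (t' * Real.log (2 * t) / (2 * Real.log p)) * ((q : ℝ) - 1) := by
    field_simp
    ring
  have h5 : t' * Real.log (2 * t) / (2 * Real.log p) ≤ t * Real.log (2 * t) / (2 * Real.log p) := by
    refine div_le_div_of_nonneg_right (mul_le_mul_of_nonneg_right httR hlog2t) (by positivity)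
  have h6 : (t' * Real.log (2 * t) / (2 * Real.log p)) * ((q : ℝ) - 1) ≤
      (t * Real.log (2 * t) / (2 * Real.log p)) * ((q : ℝ) - 1) :=
    mul_le_mul_of_nonneg_right h5 hq1.le
  have h7 : (((t' : ℝ) - 1) * (k - 1) / ((q : ℝ) - 1) + t' * (η + δ / 2) +
      t * Real.log (2 * t) / (2 * Real.log p)) * ((q : ℝ) - 1) =
      ((t' : ℝ) - 1) * (k - 1) + t' * (η + δ / 2) * ((q : ℝ) - 1) +
        (t * Real.log (2 * t) / (2 * Real.log p)) * ((q : ℝ) - 1) := by
    rw [add_mul, add_mul, div_mul_cancel₀ _ hq1.ne']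
  rw [h7, h4]
  linarith

theorem asy (ene_ : EneStmt) (ind_ : IndStmt) : AsyStmt := by
  classical
  intro t ht η δ ε hη hδ hε hmain
  rcases le_or_gt 1 ε with hε1 | hε1
  · refine ⟨2, fun p q hp hq _ _ _ A _ _ _ β γ n _ _ _ => ?_⟩
    have : Fact p.Prime := ⟨hp⟩
    have h1 : (nr p q A β : ℝ) ≤ q := by exact_mod_cast nr_le hq.pos A β
    have h2 : (0 : ℝ) ≤ q := Nat.cast_nonneg q
    nlinarith
  set h : ℝ := η + δ / 2 with hh
  have hh0 : 0 ≤ h := by positivity
  set g : ℝ := ε ^ t - t * h with hg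
  have hg0 : 0 < g := sub_pos.2 hmain
  have htR : (1 : ℝ) ≤ t := by exact_mod_cast ht
  have hgap : ∀ t' : ℕ, t' ≤ t → g ≤ ε ^ t' - t' * h := by
    intro t' h1
    have h2 : ε ^ t ≤ ε ^ t' := pow_le_pow_of_le_one hε.le hε1.le h1
    have h3 : (t' : ℝ) * h ≤ t * h := mul_le_mul_of_nonneg_right (by exact_mod_cast h1) hh0
    rw [hg]
    linarith
  have hδ1 : 2 ≤ t → δ < 1 := by
    intro h2
    have h3 : (2 : ℝ) ≤ t := by exact_mod_cast h2
    have h4 : ε ^ t < 1 := pow_lt_one₀ hε.le hε1 (by omega)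
    by_contra hcon
    push Not at hcon
    have h5 : (1 : ℝ) / 2 ≤ h := by
      rw [hh]
      linarith
    nlinarith
  set θ : ℝ := min ε (g / (4 * t)) with hθ
  have hθ0 : 0 < θ := lt_min hε (by positivity)
  have E1 : ∀ᶠ x : ℕ in atTop, 1 / ((x : ℝ) - 1) ≤ θ := by
    have h1 : Tendsto (fun x : ℕ => (x : ℝ) - 1) atTop atTop :=
      tendsto_atTop_add_const_right _ _ tendsto_natCast_atTop_atTop
    filter_upwards [h1.eventually_ge_atTop (1 / θ)] with x hx
    rw [one_div]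
    rw [one_div] at hx
    exact inv_le_of_inv_le₀ hθ0 hx
  have E2 : ∀ᶠ x : ℕ in atTop, t * Real.log (2 * t) / (2 * Real.log x) ≤ g / 4 := by
    have h1 : Tendsto (fun x : ℕ => Real.log x) atTop atTop :=
      Real.tendsto_log_atTop.comp tendsto_natCast_atTop_atTop
    filter_upwards [h1.eventually_ge_atTop (4 * t * Real.log (2 * t) / (2 * g)),
      h1.eventually_gt_atTop 0] with x hx hx0
    rw [div_le_iff₀ (by positivity)]
    rw [div_le_iff₀ (by positivity)] at hx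
    linarith
  have E3 : ∀ᶠ x : ℕ in atTop, δ < 1 → t * (x : ℝ) ^ δ / ((x : ℝ) - 1) ≤ g / 4 := by
    by_cases hδ2 : δ < 1
    · have h1 : Tendsto (fun x : ℕ => (x : ℝ) ^ (-(1 - δ))) atTop (𝓝 0) :=
        (tendsto_rpow_neg_atTop (by linarith : 0 < 1 - δ)).comp tendsto_natCast_atTop_atTop
      filter_upwards [h1.eventually_le_const (show (0 : ℝ) < g / (8 * t) by positivity),
        eventually_ge_atTop 2] with x hx hx2 _
      have hx2R : (2 : ℝ) ≤ x := by exact_mod_cast hx2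
      rw [div_le_iff₀ (by linarith)]
      have h2 : (x : ℝ) ^ δ = (x : ℝ) ^ (-(1 - δ)) * x := by
        nth_rewrite 3 [← Real.rpow_one (x : ℝ)]
        rw [← Real.rpow_add (by linarith)]
        congr 1
        ring
      rw [h2]
      have h3 : t * ((x : ℝ) ^ (-(1 - δ)) * x) ≤ t * (g / (8 * t) * x) := by
        refine mul_le_mul_of_nonneg_left (mul_le_mul_of_nonneg_right hx (by linarith)) (by linarith)
      refine h3.trans ?_
      have h4 : (t : ℝ) * (g / (8 * t) * x) = g / 8 * x := by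
        field_simp
      rw [h4]
      nlinarith
    · exact Eventually.of_forall fun x hx => absurd hx hδ2
  obtain ⟨N, hN⟩ := eventually_atTop.1 (E1.and (E2.and E3))
  refine ⟨max N 2, ?_⟩
  intro p q hp hq hNp hNq hqp A hA hAne hAc β γ n hβ hn hβγ
  have : Fact p.Prime := ⟨hp⟩
  have : NeZero q := ⟨hq.ne_zero⟩
  have hp2 := hp.two_le
  have hq2 := hq.two_le
  have hqR : (2 : ℝ) ≤ q := by exact_mod_cast hq2
  have hpR : (2 : ℝ) ≤ p := by exact_mod_cast hp2
  have hqp2 : q ≤ p := by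
    have := Nat.le_of_dvd (by omega) hqp
    omega
  obtain ⟨hq_1, _, hq_3⟩ := hN q (le_trans (le_max_left _ _) hNq)
  obtain ⟨_, hp_2, _⟩ := hN p (le_trans (le_max_left _ _) hNp)
  by_contra hcon
  push Not at hcon
  obtain ⟨t', J, c, ht1, ht2, hc, hβc, hind⟩ := ind_ p t A β γ n hβ hβγ
  have hnr : nr p q A β = nr p q A fun i => ∑ l, (n i (J l) : ZMod p) * c l := nr_congr hβc
  have hnr0 : 0 < nr p q A β := by
    have h1 : (0 : ℝ) < nr p q A β := lt_trans (by positivity) hcon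
    exact_mod_cast h1
  set r : ℕ := nr p q A β - 1 with hr
  have hene := ene_ q p t' hq hqp ht1 A hA (fun i l => n i (J l)) c hc hind r (by
    rw [← hnr, hr]
    omega)
  have hk1 : 1 ≤ A.card := hAne.card_pos
  set S : ℝ := ∑ l : Fin t', ∑ i ∈ A, ((n i (J l) : ℤ) : ℝ) ^ 2 with hSdef
  have hS0 : 0 ≤ S := sum_nonneg fun _ _ => sum_nonneg fun _ _ => by positivity
  have hp0 : (0 : ℝ) ≤ p := by linarith
  have hS : S ≤ t' * (A.card * (p : ℝ) ^ (2 * η)) := by
    have h1 : ∀ l : Fin t', ∑ i ∈ A, ((n i (J l) : ℤ) : ℝ) ^ 2 ≤ A.card * (p : ℝ) ^ (2 * η) := by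
      intro l
      calc ∑ i ∈ A, ((n i (J l) : ℤ) : ℝ) ^ 2 ≤ ∑ _i ∈ A, (p : ℝ) ^ (2 * η) := by
            refine sum_le_sum fun i hi => ?_
            have h2 := hn i hi (J l)
            have h3 : ((n i (J l) : ℤ) : ℝ) ^ 2 ≤ ((p : ℝ) ^ η) ^ 2 := by
              rw [← sq_abs]
              exact pow_le_pow_left₀ (abs_nonneg _) h2 2
            refine h3.trans (le_of_eq ?_)
            rw [← Real.rpow_natCast, ← Real.rpow_mul hp0]
            congr 1
            push_cast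
            ring
        _ = _ := by rw [sum_const, nsmul_eq_mul]
    calc S ≤ ∑ _l : Fin t', A.card * (p : ℝ) ^ (2 * η) := sum_le_sum fun l _ => h1 l
      _ = _ := by rw [sum_const, card_univ, Fintype.card_fin, nsmul_eq_mul]
  have hstep := step hη hδ ht1 ht2 hp2 hq2 hqp2 hk1 hAc S hS0 hS hene
  rw [← hh] at hstep
  have hq1 : 0 < (q : ℝ) - 1 := by linarith
  -- the middle term
  have hmid : ((t' : ℝ) - 1) * (A.card - 1) / ((q : ℝ) - 1) ≤ g / 4 := by
    rcases Nat.lt_or_ge t' 2 with h2 | h2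
    · have h3 : t' = 1 := by omega
      rw [h3]
      simp only [Nat.cast_one, sub_self, zero_mul, zero_div]
      linarith
    · have h3 := hq_3 (hδ1 (h2.trans ht2))
      refine le_trans ?_ h3
      refine div_le_div_of_nonneg_right ?_ hq1.le
      have h4 : (t' : ℝ) ≤ t := by exact_mod_cast ht2
      have h5 : (1 : ℝ) ≤ A.card := by exact_mod_cast hk1
      have h6 : (2 : ℝ) ≤ t' := by exact_mod_cast h2
      refine mul_le_mul (by linarith) (by linarith) (by linarith) (by linarith)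
  -- the left side
  have hleft : ε ^ t' - g / 4 ≤ ((r : ℝ) / ((q : ℝ) - 1)) ^ t' := by
    have h1 : (r : ℝ) = nr p q A β - 1 := by
      rw [hr, Nat.cast_sub (by omega), Nat.cast_one]
    have h2 : ε - 1 / ((q : ℝ) - 1) ≤ (r : ℝ) / ((q : ℝ) - 1) := by
      rw [h1, le_div_iff₀ hq1, sub_mul, div_mul_cancel₀ _ hq1.ne']
      nlinarith
    have h3 : ε - θ ≤ (r : ℝ) / ((q : ℝ) - 1) := by linarith
    have h4 : 0 ≤ ε - θ := sub_nonneg.2 (min_le_left _ _)
    have h5 := pow_sub_le h4 (by linarith : ε - θ ≤ ε) hε1.le t'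
    have h6 : (ε - θ) ^ t' ≤ ((r : ℝ) / ((q : ℝ) - 1)) ^ t' := pow_le_pow_left₀ h4 h3 t'
    have h7 : (t' : ℝ) * (ε - (ε - θ)) ≤ g / 4 := by
      have h8 : θ ≤ g / (4 * t) := min_le_right _ _
      have h9 : (t' : ℝ) ≤ t := by exact_mod_cast ht2
      calc (t' : ℝ) * (ε - (ε - θ)) = t' * θ := by ring
        _ ≤ t * (g / (4 * t)) := mul_le_mul h9 h8 hθ0.le (by linarith)
        _ = g / 4 := by field_simp
    linarith
  have hgap' := hgap t' ht2
  linarith

end Pool.Agent.SPV.H28
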