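import Pool.Agent.SPV.StmtsE
import Pool.Agent.Helper24_Sparse.Cpx

set_option autoImplicit false

namespace Pool.Agent.SPV.H28

open Finset

/-- powers with exponents in `ZMod q` -/
theorem pow_val_mul {K : Type} [CommRing K] {q : ℕ} [NeZero q] {x : K} (hx : x ^ q = 1)
    (a b : ZMod q) : x ^ (a * b).val = (x ^ a.val) ^ b.val := by
  rw [ZMod.val_mul, ← pow_mul]
  conv_rhs => rw [← Nat.mod_add_div (a.val * b.val) q, pow_add, pow_mul, hx, one_pow, mul_one]

theorem pow_val_cast {K : Type} [CommRing K] {q : ℕ} [NeZero q] {x : K} (hx : x ^ q = 1)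
    (u : ℕ) : x ^ ((u : ZMod q)).val = x ^ u := by
  rw [ZMod.val_natCast]
  conv_rhs => rw [← Nat.mod_add_div u q, pow_add, pow_mul, hx, one_pow, mul_one]

theorem sum_val {M : Type} [AddCommMonoid M] {q : ℕ} [NeZero q] {A : Finset ℕ} (hA : A ⊆ range q)
    (g : ℕ → M) : ∑ e : ZMod q, (if e.val ∈ A then g e.val else 0) = ∑ i ∈ A, g i := by
  rw [← sum_filter]
  refine sum_nbij' (fun e => e.val) (fun i => (i : ZMod q)) ?_ ?_ ?_ ?_ ?_
  · intro e he
    exact (mem_filter.1 he).2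
  · intro i hi
    rw [mem_filter]
    refine ⟨mem_univ _, ?_⟩
    rw [ZMod.val_cast_of_lt (mem_range.1 (hA hi))]
    exact hi
  · intro e _
    exact ZMod.natCast_zmod_val e
  · intro i hi
    exact ZMod.val_cast_of_lt (mem_range.1 (hA hi))
  · intro e _
    rfl

/-- the integer polynomials -/
def FF {q t : ℕ} (A : Finset ℕ) (n : ℕ → Fin t → ℤ) (l : Fin t) (e : ZMod q) : ℤ :=
  if e.val ∈ A then n e.val l else 0

theorem ev_FF {q t : ℕ} [NeZero q] {K : Type} [CommRing K] {A : Finset ℕ} (hA : A ⊆ range q)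
    (n : ℕ → Fin t → ℤ) (l : Fin t) (x : K) :
    ev (q := q) (FF A n l) x = ∑ i ∈ A, (n i l : K) * x ^ i := by
  rw [← sum_val hA (fun i => (n i l : K) * x ^ i)]
  unfold ev FF
  refine sum_congr rfl fun e _ => ?_
  split_ifs <;> simp

theorem sq_FF {q t : ℕ} [NeZero q] {A : Finset ℕ} (hA : A ⊆ range q)
    (n : ℕ → Fin t → ℤ) (l : Fin t) :
    ∑ e : ZMod q, ((FF A n l e : ℤ) : ℝ) ^ 2 = ∑ i ∈ A, (n i l : ℝ) ^ 2 := by
  rw [← sum_val hA (fun i => (n i l : ℝ) ^ 2)]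
  unfold FF
  refine sum_congr rfl fun e _ => ?_
  split_ifs <;> simp

theorem card_A' {q : ℕ} [NeZero q] {A : Finset ℕ} (hA : A ⊆ range q) :
    (univ.filter fun e : ZMod q => e.val ∈ A).card = A.card := by
  have h := sum_val (M := ℕ) (q := q) hA (fun _ => 1)
  rw [card_filter]
  rw [h]
  simp

theorem indep_FF {q t : ℕ} [NeZero q] {A : Finset ℕ} (hA : A ⊆ range q)
    (n : ℕ → Fin t → ℤ) (h : LinearIndependent ℂ fun (l : Fin t) (i : A) => (n i l : ℂ)) :
    LinearIndependent ℂ fun (l : Fin t) (e : ZMod q) => ((FF A n l e : ℤ) : ℂ) := by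
  refine LinearIndependent.of_comp (LinearMap.funLeft ℂ ℂ (fun i : A => ((i : ℕ) : ZMod q))) ?_
  have : (⇑(LinearMap.funLeft ℂ ℂ (fun i : A => ((i : ℕ) : ZMod q))) ∘
      fun (l : Fin t) (e : ZMod q) => ((FF A n l e : ℤ) : ℂ)) =
      fun (l : Fin t) (i : A) => (n i l : ℂ) := by
    funext l i
    have hi : (i : ℕ) ∈ A := i.2
    have hv : ((i : ℕ) : ZMod q).val = (i : ℕ) := ZMod.val_cast_of_lt (mem_range.1 (hA hi))
    simp only [Function.comp, LinearMap.funLeft_apply, FF, hv, hi, if_true]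
  rw [this]
  exact h

/-- the double counting -/
theorem exists_tuple {q t : ℕ} [Fact q.Prime] (Z : Finset (ZMod q)) (hZ : (0 : ZMod q) ∉ Z)
    (B0 : Finset (Fin t → ZMod q)) (D r : ℕ) (hD : B0.card ≤ D) (hr : r ≤ Z.card)
    (h : D < r ^ t) :
    ∃ s : Fin t → ZMod q, s ∉ B0 ∧ (∀ i, s i ≠ 0) ∧
      (q - 1) * (r ^ t - D) ≤ (univ.filter fun u : ZMod q => u ≠ 0 ∧ ∀ i, u * s i ∈ Z).card *
        (q - 1) ^ t := by
  classical
  set B : Finset (Fin t → ZMod q) := univ.filter fun s => ∀ i, s i ≠ 0 with hB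
  set N : (Fin t → ZMod q) → ℕ :=
    fun s => (univ.filter fun u : ZMod q => u ≠ 0 ∧ ∀ i, u * s i ∈ Z).card with hN
  have hcardB : B.card = (q - 1) ^ t := by
    have h1 : B = Fintype.piFinset fun _ : Fin t => (univ.erase (0 : ZMod q)) := by
      ext s
      simp [hB, Fintype.mem_piFinset]
    rw [h1, Fintype.card_piFinset]
    simp [ZMod.card]
  have hN1 : ∀ s, N s ≤ q - 1 := by
    intro s
    have h1 : (univ.filter fun u : ZMod q => u ≠ 0 ∧ ∀ i, u * s i ∈ Z) ⊆ univ.erase (0 : ZMod q) := by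
      intro u hu
      rw [mem_filter] at hu
      exact mem_erase.2 ⟨hu.2.1, mem_univ _⟩
    have h2 := card_le_card h1
    rwa [card_erase_of_mem (mem_univ _), card_univ, ZMod.card] at h2
  -- the sum
  have hsum : ∑ s ∈ B, N s = (q - 1) * Z.card ^ t := by
    have e1 : ∑ s ∈ B, N s = ∑ s ∈ B, ∑ u ∈ univ.erase (0 : ZMod q),
        (if ∀ i, u * s i ∈ Z then 1 else 0) := by
      refine sum_congr rfl fun s _ => ?_
      rw [hN]
      simp only
      rw [← card_filter]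
      congr 1
      ext u
      simp
    rw [e1, sum_comm]
    have e2 : ∀ u ∈ univ.erase (0 : ZMod q),
        ∑ s ∈ B, (if ∀ i, u * s i ∈ Z then 1 else 0) = Z.card ^ t := by
      intro u hu
      have hu0 : u ≠ 0 := (mem_erase.1 hu).1
      rw [← card_filter]
      have e3 : (Fintype.piFinset fun _ : Fin t => Z).card = Z.card ^ t := by
        rw [Fintype.card_piFinset]
        simp
      rw [← e3]
      refine card_nbij' (fun s i => u * s i) (fun s i => u⁻¹ * s i) ?_ ?_ ?_ ?_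
      · intro s hs
        simp only [coe_filter, Set.mem_ofPred_eq] at hs
        simp only [Fintype.coe_piFinset, Set.mem_pi, Set.mem_univ, forall_true_left, mem_coe]
        exact hs.2
      · intro s hs
        simp only [Fintype.coe_piFinset, Set.mem_pi, Set.mem_univ, forall_true_left, mem_coe] at hs
        simp only [coe_filter, Set.mem_ofPred_eq, hB, mem_filter, mem_univ, true_and]
        refine ⟨fun i => ?_, fun i => ?_⟩
        · refine mul_ne_zero (inv_ne_zero hu0) ?_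
          intro h0
          exact hZ (h0 ▸ hs i)
        · rw [mul_inv_cancel_left₀ hu0]
          exact hs i
      · intro s _
        funext i
        exact inv_mul_cancel_left₀ hu0 _
      · intro s _
        funext i
        exact mul_inv_cancel_left₀ hu0 _
    rw [sum_congr rfl e2, sum_const, card_erase_of_mem (mem_univ _), card_univ, ZMod.card,
      smul_eq_mul]
  set B1 := B \ B0 with hB1
  have hs1 : (q - 1) * (r ^ t - D) ≤ ∑ s ∈ B1, N s := by
    have h1 : ∑ s ∈ B, N s = ∑ s ∈ B ∩ B0, N s + ∑ s ∈ B1, N s := by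
      rw [hB1]
      exact (sum_inter_add_sum_sdiff _ _ _).symm
    have h2 : ∑ s ∈ B ∩ B0, N s ≤ (q - 1) * D := by
      calc ∑ s ∈ B ∩ B0, N s ≤ ∑ s ∈ B ∩ B0, (q - 1) := sum_le_sum fun s _ => hN1 s
        _ = (B ∩ B0).card * (q - 1) := by rw [sum_const, smul_eq_mul]
        _ ≤ D * (q - 1) := Nat.mul_le_mul_right _ ((card_le_card inter_subset_right).trans hD)
        _ = _ := mul_comm _ _
    have h3 : (q - 1) * r ^ t ≤ (q - 1) * Z.card ^ t :=
      Nat.mul_le_mul_left _ (Nat.pow_le_pow_left hr t)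
    rw [Nat.mul_sub]
    omega
  have hq1 : 0 < q - 1 := by
    have := (Fact.out : q.Prime).two_le
    omega
  have hpos : 0 < ∑ s ∈ B1, N s := lt_of_lt_of_le (Nat.mul_pos hq1 (Nat.sub_pos_of_lt h)) hs1
  have hne : B1.Nonempty := by
    by_contra hcon
    rw [not_nonempty_iff_eq_empty] at hcon
    rw [hcon] at hpos
    simp at hpos
  obtain ⟨s, hs, hmax⟩ := exists_max_image B1 N hne
  have hsB := mem_sdiff.1 hs
  refine ⟨s, hsB.2, (mem_filter.1 hsB.1).2, ?_⟩
  calc (q - 1) * (r ^ t - D) ≤ ∑ s ∈ B1, N s := hs1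
    _ ≤ ∑ _s ∈ B1, N s := sum_le_sum fun s' hs' => hmax s' hs'
    _ = B1.card * N s := by rw [sum_const, smul_eq_mul]
    _ ≤ (q - 1) ^ t * N s := by
        refine Nat.mul_le_mul_right _ ?_
        rw [← hcardB]
        exact card_le_card sdiff_subset
    _ = N s * (q - 1) ^ t := mul_comm _ _

/-- the determinants: the product over `u` is at most the power of the mean -/
theorem prod_le {q t : ℕ} [NeZero q] (hq : q.Prime) (had_ : HadStmt) (par_ : ParStmt) (ht : 1 ≤ t)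
    (w : ℂ) (hw : IsPrimitiveRoot w q) (F : Fin t → ZMod q → ℤ) (s : Fin t → ZMod q)
    (hs : ∀ i, s i ≠ 0) :
    ∏ j ∈ Ico 1 q, ‖(Matrix.of fun i l => ev (F l) ((w ^ j) ^ (s i).val)).det‖ ^ 2 ≤
      (q / ((q : ℝ) - 1) * ∑ l, ∑ e, ((F l e : ℤ) : ℝ) ^ 2) ^ (t * (q - 1)) := by
  classical
  have : Fact q.Prime := ⟨hq⟩
  have hw1 : w ^ q = 1 := hw.pow_eq_one
  set g : ℕ → Fin t → ℝ := fun j l => ∑ i, ‖ev (F l) ((w ^ j) ^ (s i).val)‖ ^ 2 with hg
  have hg0 : ∀ j l, 0 ≤ g j l := fun j l => sum_nonneg fun i _ => by positivity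
  have h1 : ∏ j ∈ Ico 1 q, ‖(Matrix.of fun i l => ev (F l) ((w ^ j) ^ (s i).val)).det‖ ^ 2 ≤
      ∏ j ∈ Ico 1 q, ∏ l, g j l := by
    refine prod_le_prod (fun j _ => by positivity) fun j _ => ?_
    have h2 := had_ t (Matrix.of fun i l => ev (F l) ((w ^ j) ^ (s i).val)).transpose
    rw [Matrix.det_transpose] at h2
    exact h2
  have hcard : (Ico 1 q ×ˢ (univ : Finset (Fin t))).card = t * (q - 1) := by
    rw [card_product, Nat.card_Ico, card_univ, Fintype.card_fin, mul_comm]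
  have hq2 := hq.two_le
  have h3 : ∏ j ∈ Ico 1 q, ∏ l, g j l ≤
      ((∑ x ∈ Ico 1 q ×ˢ (univ : Finset (Fin t)), g x.1 x.2) / ((t * (q - 1) : ℕ) : ℝ)) ^
        (t * (q - 1)) := by
    have h4 := Helper24_Sparse.amgm (Ico 1 q ×ˢ (univ : Finset (Fin t))) (fun x => g x.1 x.2)
      (fun x _ => hg0 _ _) (by rw [hcard]; exact Nat.mul_pos (by omega) (by omega))
    rw [hcard] at h4
    rw [prod_product] at h4
    exact h4
  refine h1.trans (h3.trans ?_)
  have hS : ∀ l, 0 ≤ ∑ e, ((F l e : ℤ) : ℝ) ^ 2 := fun l => sum_nonneg fun _ _ => by positivity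
  refine pow_le_pow_left₀ (div_nonneg (sum_nonneg fun x _ => hg0 _ _) (by positivity)) ?_ _
  have hqR : (2 : ℝ) ≤ q := by exact_mod_cast hq2
  have htR : (1 : ℝ) ≤ t := by exact_mod_cast ht
  have hcast : ((t * (q - 1) : ℕ) : ℝ) = t * ((q : ℝ) - 1) := by
    rw [Nat.cast_mul, Nat.cast_sub (by omega), Nat.cast_one]
  rw [hcast, div_le_iff₀ (by nlinarith)]
  -- the sum
  have h5 : ∀ i : Fin t, ∀ l : Fin t, ∑ j ∈ Ico 1 q, ‖ev (F l) ((w ^ j) ^ (s i).val)‖ ^ 2 ≤
      q * ∑ e, ((F l e : ℤ) : ℝ) ^ 2 := by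
    intro i l
    have h6 := par_ q hq (F l) w hw
    refine le_trans (le_of_eq ?_) h6
    refine sum_nbij' (fun j => ((j : ZMod q) * s i).val) (fun j => ((j : ZMod q) * (s i)⁻¹).val)
      ?_ ?_ ?_ ?_ ?_
    · intro j hj
      rw [mem_Ico] at hj ⊢
      refine ⟨?_, ZMod.val_lt _⟩
      rw [Nat.one_le_iff_ne_zero, Ne, ZMod.val_eq_zero]
      refine mul_ne_zero ?_ (hs i)
      rw [Ne, ZMod.natCast_eq_zero_iff]
      intro hd
      exact absurd (Nat.le_of_dvd (by omega) hd) (by omega)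
    · intro j hj
      rw [mem_Ico] at hj ⊢
      refine ⟨?_, ZMod.val_lt _⟩
      rw [Nat.one_le_iff_ne_zero, Ne, ZMod.val_eq_zero]
      refine mul_ne_zero ?_ (inv_ne_zero (hs i))
      rw [Ne, ZMod.natCast_eq_zero_iff]
      intro hd
      exact absurd (Nat.le_of_dvd (by omega) hd) (by omega)
    · intro j hj
      rw [mem_Ico] at hj
      simp only [ZMod.natCast_val, ZMod.cast_id', id]
      rw [mul_assoc, mul_inv_cancel₀ (hs i), mul_one, ZMod.val_cast_of_lt hj.2]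
    · intro j hj
      rw [mem_Ico] at hj
      simp only [ZMod.natCast_val, ZMod.cast_id', id]
      rw [mul_assoc, inv_mul_cancel₀ (hs i), mul_one, ZMod.val_cast_of_lt hj.2]
    · intro j _
      rw [pow_val_mul hw1, pow_val_cast hw1]
  have h7 : ∑ x ∈ Ico 1 q ×ˢ (univ : Finset (Fin t)), g x.1 x.2 =
      ∑ l, ∑ i : Fin t, ∑ j ∈ Ico 1 q, ‖ev (F l) ((w ^ j) ^ (s i).val)‖ ^ 2 := by
    rw [sum_product, sum_comm]
    refine sum_congr rfl fun l _ => ?_
    simp only [hg]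
    rw [sum_comm]
  rw [h7]
  calc ∑ l, ∑ i : Fin t, ∑ j ∈ Ico 1 q, ‖ev (F l) ((w ^ j) ^ (s i).val)‖ ^ 2
      ≤ ∑ l, ∑ _i : Fin t, q * ∑ e, ((F l e : ℤ) : ℝ) ^ 2 :=
        sum_le_sum fun l _ => sum_le_sum fun i _ => h5 i l
    _ = ∑ l, t * (q * ∑ e, ((F l e : ℤ) : ℝ) ^ 2) := by
        refine sum_congr rfl fun l _ => ?_
        rw [sum_const, card_univ, Fintype.card_fin, nsmul_eq_mul]
    _ = q / ((q : ℝ) - 1) * (∑ l, ∑ e, ((F l e : ℤ) : ℝ) ^ 2) * (t * ((q : ℝ) - 1)) := by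
        rw [← mul_sum, ← mul_sum]
        field_simp [show (q : ℝ) - 1 ≠ 0 by linarith]

theorem ene (nrm_ : NrmStmt) (had_ : HadStmt) (par_ : ParStmt) (rts_ : RtsStmt) (dep_ : DepStmt)
    (poe_ : PoeStmt) : EneStmt := by
  classical
  intro q p t _ _ hq hqp ht A hA n c hc hind r hr
  have : Fact q.Prime := ⟨hq⟩
  have hA1 : A ⊆ range q := hA.1
  have hq2 := hq.two_le
  have hqR : (2 : ℝ) ≤ q := by exact_mod_cast hq2
  have hp2 := (Fact.out : p.Prime).two_le
  have hlogp : 0 ≤ Real.log p := Real.log_nonneg (by exact_mod_cast (by omega : 1 ≤ p))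
  have htR : (1 : ℝ) ≤ t := by exact_mod_cast ht
  -- the number S
  set S : ℝ := ∑ l, ∑ i ∈ A, (n i l : ℝ) ^ 2 with hSdef
  have hS1 : 1 ≤ S := by
    obtain ⟨l0⟩ : Nonempty (Fin t) := ⟨⟨0, by omega⟩⟩
    have hl : (fun i : A => (n i l0 : ℂ)) ≠ 0 := hind.ne_zero l0
    obtain ⟨i, hi⟩ : ∃ i : A, (n i l0 : ℂ) ≠ 0 := by
      by_contra hcon
      push Not at hcon
      exact hl (funext fun i => hcon i)
    have hi2 : n i l0 ≠ 0 := by exact_mod_cast hi
    have h1 : (1 : ℝ) ≤ (n i l0 : ℝ) ^ 2 := by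
      have : (1 : ℤ) ≤ (n i l0) ^ 2 := by
        have := sq_pos_of_ne_zero hi2
        omega
      exact_mod_cast this
    have h2 : (n i l0 : ℝ) ^ 2 ≤ ∑ i ∈ A, (n i l0 : ℝ) ^ 2 :=
      single_le_sum (f := fun i => (n i l0 : ℝ) ^ 2) (fun _ _ => by positivity) i.2
    have h3 : ∑ i ∈ A, (n i l0 : ℝ) ^ 2 ≤ ∑ l, ∑ i ∈ A, (n i l : ℝ) ^ 2 :=
      single_le_sum (f := fun l => ∑ i ∈ A, (n i l : ℝ) ^ 2)
        (fun _ _ => sum_nonneg fun _ _ => by positivity) (mem_univ l0)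
    exact h1.trans (h2.trans h3)
  have hbase : 1 ≤ q / ((q : ℝ) - 1) * S := by
    have h1 : 1 ≤ q / ((q : ℝ) - 1) := by
      rw [le_div_iff₀ (by linarith)]
      linarith
    nlinarith
  have hrhs : 0 ≤ (t * ((q : ℝ) - 1) / 2) * Real.log (q / ((q : ℝ) - 1) * S) :=
    mul_nonneg (by
      have : 0 ≤ t * ((q : ℝ) - 1) := mul_nonneg (by linarith) (by linarith)
      linarith) (Real.log_nonneg hbase)
  have hAne : 1 ≤ A.card := by
    rw [Nat.one_le_iff_ne_zero, Ne, card_eq_zero]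
    intro h0
    subst h0
    simp [hSdef] at hS1
    linarith
  set D : ℕ := (t - 1) * (A.card - 1) * (q - 1) ^ (t - 1) with hD
  have hDR : (D : ℝ) = ((t : ℝ) - 1) * (A.card - 1) * ((q : ℝ) - 1) ^ (t - 1) := by
    rw [hD, Nat.cast_mul, Nat.cast_mul, Nat.cast_pow, Nat.cast_sub ht, Nat.cast_sub hAne,
      Nat.cast_sub (by omega : 1 ≤ q), Nat.cast_one]
  have hq1R : 0 < (q : ℝ) - 1 := by linarith
  have hpowpos : 0 < ((q : ℝ) - 1) ^ (t - 1) := pow_pos hq1R _
  have hq1cast : ((q - 1 : ℕ) : ℝ) = (q : ℝ) - 1 := by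
    rw [Nat.cast_sub (by omega : 1 ≤ q), Nat.cast_one]
  -- the trivial case
  rcases le_or_gt (r ^ t) D with hle | hlt
  · refine le_trans (mul_nonpos_of_nonpos_of_nonneg ?_ hlogp) hrhs
    rw [sub_nonpos, div_le_iff₀ hpowpos, ← hDR]
    exact_mod_cast hle
  -- the roots of unity
  obtain ⟨w, hw⟩ : ∃ w : ℂ, IsPrimitiveRoot w q :=
    ⟨_, Complex.isPrimitiveRoot_exp q hq.ne_zero⟩
  have hw1 : w ^ q = 1 := hw.pow_eq_one
  obtain ⟨z, hz, hzc⟩ := rts_ p q hq hqp
  have hz1 : z ^ q = 1 := hz.pow_eq_one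
  set F : Fin t → ZMod q → ℤ := FF A n with hF
  -- the value of `f`
  have hval : ∀ s : ZMod q, ∑ i ∈ A, (∑ l, (n i l : ZMod p) * c l) * z ^ (s * (i : ZMod q)).val =
      ∑ l, c l * ev (F l) (z ^ s.val) := by
    intro s
    have e1 : ∀ l, c l * ev (F l) (z ^ s.val) = ∑ i ∈ A, ((n i l : ZMod p) * c l) * (z ^ s.val) ^ i := by
      intro l
      rw [hF, ev_FF hA1, mul_sum]
      refine sum_congr rfl fun i _ => ?_
      ring
    rw [sum_congr rfl fun l _ => e1 l, sum_comm]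
    refine sum_congr rfl fun i _ => ?_
    rw [← sum_mul]
    congr 1
    rw [pow_val_mul hz1, pow_val_cast]
    rw [← pow_mul, mul_comm, pow_mul, hz1, one_pow]
  set Z : Finset (ZMod q) := univ.filter fun s => s ≠ 0 ∧ ∑ l, c l * ev (F l) (z ^ s.val) = 0 with hZ
  have hZ0 : (0 : ZMod q) ∉ Z := by simp [hZ]
  have hZr : r ≤ Z.card := by
    have h1 := hzc A (fun i => ∑ l, (n i l : ZMod p) * c l)
    rw [← h1] at hr
    have h2 : (univ.filter fun s : ZMod q =>
        ∑ i ∈ A, (∑ l, (n i l : ZMod p) * c l) * z ^ (s * (i : ZMod q)).val = 0) ⊆ insert 0 Z := by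
      intro s hs
      rw [mem_filter, hval] at hs
      rw [mem_insert]
      by_cases h0 : s = 0
      · exact Or.inl h0
      · exact Or.inr (mem_filter.2 ⟨mem_univ _, h0, hs.2⟩)
    have h3 := (card_le_card h2).trans (card_insert_le _ _)
    omega
  -- dependent tuples
  set A' : Finset (ZMod q) := univ.filter fun e : ZMod q => e.val ∈ A with hA'
  have hA'c : A'.card = A.card := card_A' hA1
  have hAq : A.card < q := by
    have := card_lt_card hA
    rwa [card_range] at this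
  have hdep := dep_ q t hq ht w hw A' F (by rw [hA'c]; exact hAq) (by
    intro l e he
    have : e.val ∉ A := fun h => he (mem_filter.2 ⟨mem_univ _, h⟩)
    simp [hF, FF, this]) (indep_FF hA1 n hind)
  rw [hA'c] at hdep
  obtain ⟨s, hs0, hsne, hscount⟩ := exists_tuple Z hZ0 _ D r hdep hZr hlt
  have hdet : (Matrix.of fun i l => ev (F l) (w ^ (s i).val)).det ≠ 0 := by
    intro h0
    exact hs0 (mem_filter.2 ⟨mem_univ _, hsne, h0⟩)
  obtain ⟨R, hR⟩ := poe_ q t F s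
  have hRw : ev R w ≠ 0 := by
    rw [hR ℂ w hw1]
    exact hdet
  obtain ⟨N, hN0, hNabs, hNdiv⟩ := nrm_ q hq R w hw hRw
  have hpq : p ≠ q := by
    intro h
    subst h
    have := Nat.le_of_dvd (by omega) hqp
    omega
  set U : Finset ℕ := (Ico 1 q).filter fun u => ∀ i, (u : ZMod q) * s i ∈ Z with hU
  have hUcard : U.card = (univ.filter fun u : ZMod q => u ≠ 0 ∧ ∀ i, u * s i ∈ Z).card := by
    refine card_nbij' (fun u => (u : ZMod q)) (fun u => u.val) ?_ ?_ ?_ ?_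
    · intro u hu
      simp only [hU, coe_filter, Set.mem_ofPred_eq, mem_Ico] at hu
      simp only [coe_filter, Set.mem_ofPred_eq, mem_univ, true_and]
      refine ⟨?_, hu.2⟩
      rw [Ne, ZMod.natCast_eq_zero_iff]
      intro hd
      exact absurd (Nat.le_of_dvd (by omega) hd) (by omega)
    · intro u hu
      simp only [coe_filter, Set.mem_ofPred_eq, mem_univ, true_and] at hu
      simp only [hU, coe_filter, Set.mem_ofPred_eq, mem_Ico]
      refine ⟨⟨?_, ZMod.val_lt _⟩, ?_⟩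
      · rw [Nat.one_le_iff_ne_zero, Ne, ZMod.val_eq_zero]
        exact hu.1
      · simpa using hu.2
    · intro u hu
      simp only [hU, coe_filter, Set.mem_ofPred_eq, mem_Ico] at hu
      exact ZMod.val_cast_of_lt hu.1.2
    · intro u _
      exact ZMod.natCast_zmod_val u
  have hUdiv : (p : ℤ) ^ U.card ∣ N := by
    refine hNdiv p hpq z hz U (filter_subset _ _) ?_
    intro u hu
    rw [hU, mem_filter] at hu
    have hx : (z ^ u) ^ q = 1 := by rw [← pow_mul, mul_comm, pow_mul, hz1, one_pow]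
    rw [hR (ZMod p) (z ^ u) hx]
    have hker : (Matrix.of fun i l => ev (F l) ((z ^ u) ^ (s i).val)).mulVec c = 0 := by
      funext i
      have h1 := (mem_filter.1 (hu.2 i)).2.2
      rw [pow_val_mul hz1, pow_val_cast hz1] at h1
      simp only [Matrix.mulVec, dotProduct, Matrix.of_apply, Pi.zero_apply]
      rw [← h1]
      refine sum_congr rfl fun l _ => ?_
      rw [mul_comm]
    exact Matrix.exists_mulVec_eq_zero_iff.1 ⟨c, fun h0 => by
      obtain ⟨l, hl⟩ := hc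
      exact hl (by rw [h0]; rfl), hker⟩
  -- logarithms
  have hNpos : (0 : ℝ) < |(N : ℝ)| := abs_pos.2 (by exact_mod_cast hN0)
  have hlog1 : U.card * Real.log p ≤ Real.log |(N : ℝ)| := by
    have h1 : (p : ℤ) ^ U.card ≤ |N| := Int.le_of_dvd (abs_pos.2 hN0) ((dvd_abs _ _).2 hUdiv)
    have h2 : ((p : ℝ)) ^ U.card ≤ |(N : ℝ)| := by exact_mod_cast h1
    have h3 := Real.log_le_log (by positivity) h2
    rwa [Real.log_pow] at h3
  have hlog2 : Real.log |(N : ℝ)| ≤ (t * ((q : ℝ) - 1) / 2) * Real.log (q / ((q : ℝ) - 1) * S) := by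
    have h1 := prod_le hq had_ par_ ht w hw F s hsne
    have h2 : ∏ j ∈ Ico 1 q, ‖(Matrix.of fun i l => ev (F l) ((w ^ j) ^ (s i).val)).det‖ ^ 2 =
        |(N : ℝ)| ^ 2 := by
      rw [hNabs, ← prod_pow]
      refine prod_congr rfl fun j _ => ?_
      rw [hR ℂ (w ^ j) (by rw [← pow_mul, mul_comm, pow_mul, hw1, one_pow])]
    have h3 : ∑ l, ∑ e, ((F l e : ℤ) : ℝ) ^ 2 = S := by
      rw [hSdef]
      exact sum_congr rfl fun l _ => sq_FF hA1 n l
    rw [h2, h3] at h1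
    have h4 := Real.log_le_log (by positivity) h1
    rw [Real.log_pow, Real.log_pow] at h4
    have h5 : ((t * (q - 1) : ℕ) : ℝ) = t * ((q : ℝ) - 1) := by
      rw [Nat.cast_mul, hq1cast]
    rw [h5] at h4
    push_cast at h4
    linarith
  refine le_trans (le_trans (mul_le_mul_of_nonneg_right ?_ hlogp) hlog1) hlog2
  -- the count
  rw [← hUcard] at hscount
  have h1 : ((q : ℝ) - 1) * ((r : ℝ) ^ t - D) ≤ U.card * ((q : ℝ) - 1) ^ t := by
    have h2 : (((q - 1) * (r ^ t - D) : ℕ) : ℝ) ≤ ((U.card * (q - 1) ^ t : ℕ) : ℝ) := by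
      exact_mod_cast hscount
    rw [Nat.cast_mul, Nat.cast_mul, Nat.cast_sub hlt.le, Nat.cast_pow, Nat.cast_pow, hq1cast] at h2
    exact h2
  have h2 : ((q : ℝ) - 1) ^ t = ((q : ℝ) - 1) * ((q : ℝ) - 1) ^ (t - 1) := by
    rw [← pow_succ']
    congr 1
    omega
  have h3 : (r : ℝ) ^ t - D ≤ U.card * ((q : ℝ) - 1) ^ (t - 1) := by
    rw [h2] at h1
    have h4 : ((q : ℝ) - 1) * ((r : ℝ) ^ t - D) ≤
        ((q : ℝ) - 1) * (U.card * ((q : ℝ) - 1) ^ (t - 1)) := by linarith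
    exact le_of_mul_le_mul_left h4 hq1R
  have h4 : (r : ℝ) ^ t / ((q : ℝ) - 1) ^ (t - 1) - ((t : ℝ) - 1) * (A.card - 1) =
      ((r : ℝ) ^ t - D) / ((q : ℝ) - 1) ^ (t - 1) := by
    rw [sub_div, hDR, mul_div_assoc, div_self hpowpos.ne', mul_one]
  rw [h4, div_le_iff₀ hpowpos]
  exact h3

end Pool.Agent.SPV.H28
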